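import Pool.Agent.W36.GS.S16

set_option autoImplicit false

/-!
Linear patterns with sieve conditions in the sets invariant under the 3x+1 map on the integers, for
example in the basins of the cycles, known or unknown.

For every system of pairwise independent affine linear forms in several variables and every sieve
problem of bounded dimension in these variables (arbitrary sets of residue classes, which may depend
on all the variables together, are removed modulo the primes up to a small power of `N`, and the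
variables are in given classes to an odd modulus up to a small power of `N`), the sifted points of a
box at which the values of the forms are in given invariant sets have among all sifted points the
frequency predicted by the densities, with an error which is small relative to the expected number
of sifted points. So every pattern of basins of cycles occurs along arithmetic progressions of
almost primes, in all classes. The only cycles are the five known ones if for suitable systems and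
sieves the points at which all values are in the basins of other cycles are few relative to the
sifted points.
-/

namespace Pool.Agent.Results.MP_edb5be_nt.AlmostPrimePatterns

open Filter Topology

/-- The 3x+1 map on the integers. -/
def T (x : ℤ) : ℤ := if x % 2 = 0 then x / 2 else (3 * x + 1) / 2

/-- `S` is invariant under `T` and its inverse, for example the set of the integers whose trajectory
enters a given cycle. -/
def Invariant (S : Set ℤ) : Prop := ∀ x : ℤ, x ∈ S ↔ T x ∈ S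

/-- Among the integers of sign `s` the set `S` has natural density `δ`. -/
def HasDensity (s : ℤ) (S : Set ℤ) (δ : ℝ) : Prop :=
  Tendsto (fun N : ℕ => ({n : ℤ | 0 < s * n ∧ s * n ≤ N ∧ n ∈ S}.ncard : ℝ) / N) atTop (𝓝 δ)

/-- A sieve problem in `D` variables: the classes in `Ω p` are to be removed for the primes `p ∈ Q`, and
the variables are `ρ` modulo `q`. -/
structure Sieve (D : ℕ) where
  Q : Finset ℕ
  Ω : (p : ℕ) → Set (Fin D → ZMod p)
  q : ℕ
  ρ : Fin D → ℤ

/-- The elements of `Q` are primes up to `z`, for each of them `Ω p` consists of at most `κ p ^ (D - 1)` of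
the `p ^ D` classes, the modulus `q` is odd, at most `z`, and divisible by none of them. -/
def Sieve.Valid {D : ℕ} (w : Sieve D) (κ : ℕ) (z : ℝ) : Prop :=
  (∀ p ∈ w.Q, p.Prime ∧ (p : ℝ) ≤ z ∧ ¬ p ∣ w.q ∧ (w.Ω p).ncard * p ≤ κ * p ^ D) ∧ w.q % 2 = 1 ∧ (w.q : ℝ) ≤ z

/-- The point `x` survives: modulo the primes of `Q` it is not in the sets `Ω p`, and it is `ρ` modulo `q`. -/
def Sieve.Passes {D : ℕ} (w : Sieve D) (x : Fin D → ℤ) : Prop :=
  (∀ p ∈ w.Q, (fun j => (x j : ZMod p)) ∉ w.Ω p) ∧ ∀ j, (w.q : ℤ) ∣ x j - w.ρ j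

/-- The expected density of the surviving points. -/
noncomputable def Sieve.dens {D : ℕ} (w : Sieve D) : ℝ := (∏ p ∈ w.Q, (1 - ((w.Ω p).ncard : ℝ) / (p : ℝ) ^ D)) / (w.q : ℝ) ^ D

/-- The number of the surviving points `x` of the box `∏ (P j, P' j]` such that, for every `i`, the value
`Λ i • x + c i` of the `i`-th form is in `S i`, has sign `s i`, and its absolute value is in `(M i, N i]`. -/
noncomputable def Points {D r : ℕ} (Λ : Fin r → Fin D → ℤ) (c s : Fin r → ℤ) (M N : Fin r → ℕ) (P P' : Fin D → ℤ)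
    (w : Sieve D) (S : Fin r → Set ℤ) : ℕ :=
  {x : Fin D → ℤ | (∀ j, P j < x j ∧ x j ≤ P' j) ∧ w.Passes x ∧ ∀ i, (∑ j, Λ i j * x j + c i) ∈ S i ∧
    (M i : ℤ) < s i * (∑ j, Λ i j * x j + c i) ∧ s i * (∑ j, Λ i j * x j + c i) ≤ N i}.ncard

/-- The surviving points with coordinates in `(-N, N]` such that the values of all linear forms are of sign
`s`, of absolute value at most `N`, and in the sets `S i`. -/
noncomputable def Patterns {D r : ℕ} (Λ : Fin r → Fin D → ℤ) (s : ℤ) (N : ℕ) (w : Sieve D) (S : Fin r → Set ℤ) : ℕ :=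
  Points Λ 0 (fun _ => s) (fun _ => 0) (fun _ => N) (fun _ => -(N : ℤ)) (fun _ => (N : ℤ)) w S

/-- The elements of the five known cycles. -/
def Known : Finset ℤ := {1, 2, 0, -1, -5, -7, -10, -17, -25, -37, -55, -82, -41, -61, -91, -136, -68, -34}

/-- The integers whose trajectory enters a cycle different from the five known ones. -/
def Unknown : Set ℤ := {x | ∃ k p : ℕ, 1 ≤ p ∧ T^[p] (T^[k] x) = T^[k] x ∧ T^[k] x ∉ Known}

theorem known_closed : ∀ x ∈ Known, T x ∈ Known := by decide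

theorem known_iter : ∀ (n : ℕ) (x : ℤ), x ∈ Known → T^[n] x ∈ Known := by
  intro n
  induction n with
  | zero => intro x hx; exact hx
  | succ n ih => intro x hx; rw [Function.iterate_succ_apply]; exact ih _ (known_closed x hx)

theorem unknown_inv : Invariant Unknown := by
  intro x
  constructor
  · rintro ⟨k, p, hp, h1, h2⟩
    cases k with
    | zero =>
      rw [Function.iterate_zero, id_eq] at h1 h2
      refine ⟨0, p, hp, ?_, ?_⟩
      · rw [Function.iterate_zero, id_eq, ← Function.iterate_succ_apply, Function.iterate_succ_apply', h1]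
      · rw [Function.iterate_zero, id_eq]
        intro h3
        apply h2
        obtain ⟨n, rfl⟩ : ∃ n, p = n + 1 := ⟨p - 1, by omega⟩
        rw [Function.iterate_succ_apply] at h1
        rw [← h1]
        exact known_iter n _ h3
    | succ k =>
      rw [Function.iterate_succ_apply] at h1 h2
      exact ⟨k, p, hp, h1, h2⟩
  · rintro ⟨k, p, hp, h1, h2⟩
    refine ⟨k + 1, p, hp, ?_, ?_⟩ <;> rw [Function.iterate_succ_apply]
    · exact h1
    · exact h2

open Pool.Agent.W41 Pool.Agent.H499R2.ND Pool.Agent.H499R2.CO Pool.Agent.W41.FU Pool.Agent.W36.GK Pool.Agent.W36.GS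

theorem inv_of {S : Set ℤ} (hS : Invariant S) : Inv 1 S := hS

theorem HD_iff {s : ℤ} (hs : s = 1 ∨ s = -1) {S : Set ℤ} (hS : Invariant S) :
    ∃ δ : ℝ, HD s S δ ∧ HasDensity s S δ := by
  obtain ⟨δ, -, -, h⟩ := dens_side (d := 1) odd_one (by norm_num) hs (inv_of hS)
  exact ⟨δ, h, HD_ncard hs h⟩

theorem points_eq {D r : ℕ} (Λ : Fin r → Fin D → ℤ) (c s : Fin r → ℤ) (M N : Fin r → ℕ) (P P' : Fin D → ℤ)
    (w : Sieve D) (S : Fin r → Set ℤ) :
    (Points Λ c s M N P P' w S : ℝ) = ∑ x ∈ pts Λ c s M N P P' S, sgq w.q (rd w.q w.ρ) w.Q w.Ω x := by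
  classical
  have hcl : ∀ x : Fin D → ℤ, (∀ j, (w.q : ℤ) ∣ x j - w.ρ j) ↔ rd w.q x = rd w.q w.ρ := by
    intro x
    rw [funext_iff]
    apply forall_congr'
    intro j
    unfold rd
    rw [← ZMod.intCast_zmod_eq_zero_iff_dvd, Int.cast_sub, sub_eq_zero]
  have e1 : ∀ x, sgq w.q (rd w.q w.ρ) w.Q w.Ω x = if w.Passes x then 1 else 0 := by
    intro x
    unfold sgq sg Sieve.Passes
    rw [hcl]
    by_cases h1 : rd w.q x = rd w.q w.ρ
    · by_cases h2 : ∀ p ∈ w.Q, rd p x ∉ w.Ω p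
      · rw [if_pos h1, if_pos h2, if_pos ⟨h2, h1⟩]
      · rw [if_pos h1, if_neg h2, if_neg (fun h3 => h2 h3.1)]
    · rw [if_neg h1, if_neg (fun h3 => h1 h3.2)]
  simp only [e1]
  rw [← Finset.sum_filter, Finset.sum_const, nsmul_eq_mul, mul_one]
  unfold Points
  have e2 : {x : Fin D → ℤ | (∀ j, P j < x j ∧ x j ≤ P' j) ∧ w.Passes x ∧ ∀ i, (∑ j, Λ i j * x j + c i) ∈ S i ∧
    (M i : ℤ) < s i * (∑ j, Λ i j * x j + c i) ∧ s i * (∑ j, Λ i j * x j + c i) ≤ N i} =
      ((pts Λ c s M N P P' S).filter (fun x => w.Passes x) : Set (Fin D → ℤ)) := by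
    ext x
    unfold pts
    rw [Finset.coe_filter]
    simp only [Set.mem_ofPred_eq, Finset.mem_filter, mem_box]
    constructor
    · rintro ⟨a, b, c⟩; exact ⟨⟨a, c⟩, b⟩
    · rintro ⟨⟨a, c⟩, b⟩; exact ⟨a, b, c⟩
  rw [e2, Set.ncard_coe_finset]

theorem dens_eq {D : ℕ} (w : Sieve D) : w.dens = VV w.Q w.Ω / (w.q : ℝ) ^ D := rfl

theorem many {D r : ℕ} {Λ : Fin r → Fin (D + 1) → ℤ} (hΛ : ∀ i j, i ≠ j → ∀ a b : ℤ, a • Λ i = b • Λ j → a = 0 ∧ b = 0)
    {v : Fin (D + 1) → ℤ} (hv : ∀ i, 0 < ∑ j, Λ i j * v j) {s : ℤ} (hs : s = 1 ∨ s = -1) {S : Fin r → Set ℤ} (hS : ∀ i, Invariant (S i))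
    (hne : ∀ i, ∃ x ∈ S i, 0 < s * x) (κ : ℕ) : ∃ β : ℝ, 0 < β ∧ ∃ θ : ℝ, 0 < θ ∧ ∃ N₀ : ℕ, ∀ N : ℕ, N₀ ≤ N →
      ∀ w : Sieve (D + 1), w.Valid κ ((N : ℝ) ^ θ) → β * w.dens * N ^ (D + 1) ≤ Patterns Λ s N w S := by
  choose δ hδ hδ' using fun i => HD_iff hs (hS i)
  have hpos : ∀ i, 0 < δ i := by
    intro i
    obtain ⟨x, hx, hx0⟩ := hne i
    exact one_pos hs (inv_of (hS i)) hx hx0 (hδ i)
  obtain ⟨β, hβ, θ, hθ, N₀, h⟩ := many_siftq (κ := κ) hΛ hv hs (fun i => inv_of (hS i)) hδ hpos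
  refine ⟨β, hβ, θ, hθ, N₀, fun N hN w hw => ?_⟩
  have h1 := h N hN w.Q (fun p hp => ⟨(hw.1 p hp).1, (hw.1 p hp).2.1⟩) w.Ω (fun p hp => (hw.1 p hp).2.2.2) w.q hw.2.1 hw.2.2
    (fun p hp => (hw.1 p hp).2.2.1) (rd w.q w.ρ)
  unfold Patterns
  rw [points_eq, dens_eq]
  exact h1

theorem sufficient {D r : ℕ} {Λ : Fin r → Fin (D + 1) → ℤ} (hΛ : ∀ i j, i ≠ j → ∀ a b : ℤ, a • Λ i = b • Λ j → a = 0 ∧ b = 0)
    {v : Fin (D + 1) → ℤ} (hv : ∀ i, 0 < ∑ j, Λ i j * v j) {s : ℤ} (hs : s = 1 ∨ s = -1) (κ : ℕ) {ψ : ℕ → ℝ} (hψ : Tendsto ψ atTop (𝓝 0))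
    {S : Set ℤ} (hS : Invariant S) (h : ∃ᶠ N : ℕ in atTop, ∃ w : Sieve (D + 1), w.Valid κ ((N : ℝ) ^ ψ N) ∧ w.dens ≠ 0 ∧
      (Patterns Λ s N w (fun _ => S) : ℝ) ≤ ψ N * w.dens * N ^ (D + 1)) : ∀ x ∈ S, ¬ 0 < s * x := by
  intro x hxS hx
  obtain ⟨β, hβ, θ, hθ, N0, hN0⟩ := many hΛ hv hs (S := fun _ => S) (fun _ => hS) (fun _ => ⟨x, hxS, hx⟩) κ
  have h1 : ∀ᶠ N : ℕ in atTop, ψ N < min β θ := (tendsto_order.1 hψ).2 _ (lt_min hβ hθ)
  obtain ⟨N, ⟨w, hw, hw0, h2⟩, h3, h4⟩ := (h.and_eventually (h1.and (eventually_ge_atTop (N0 + 1)))).exists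
  have hNp : (1 : ℝ) ≤ N := by exact_mod_cast (by omega : 1 ≤ N)
  have hz : (N : ℝ) ^ ψ N ≤ (N : ℝ) ^ θ := Real.rpow_le_rpow_of_exponent_le hNp (h3.le.trans (min_le_right _ _))
  have hw' : w.Valid κ ((N : ℝ) ^ θ) :=
    ⟨fun p hp => ⟨(hw.1 p hp).1, (hw.1 p hp).2.1.trans hz, (hw.1 p hp).2.2⟩, hw.2.1, hw.2.2.trans hz⟩
  have h5 := hN0 N (by omega) w hw'
  have hd : 0 < w.dens := by
    have h6 : 0 ≤ w.dens := by
      rw [dens_eq]
      have := VV_nonneg (fun p hp => (hw.1 p hp).1) w.Ω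
      positivity
    exact lt_of_le_of_ne h6 (Ne.symm hw0)
  have h6 : 0 < w.dens * (N : ℝ) ^ (D + 1) := by positivity
  have h7 : ψ N < β := h3.trans_le (min_le_left _ _)
  have h8 : ψ N * (w.dens * (N : ℝ) ^ (D + 1)) < β * (w.dens * (N : ℝ) ^ (D + 1)) := mul_lt_mul_of_pos_right h7 h6
  linarith

/-- (A) For every system of nonzero, pairwise independent linear forms, signs, `κ` and `ε > 0` there is
`θ > 0` such that, uniformly in the invariant sets `S i`, in the sieve of dimension `κ` with primes and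
modulus at most `N ^ θ`, in the constant terms, the box and the intervals, the number of the surviving
points with values in the sets `S i` and in the intervals is the product of the densities times the
number of the surviving points with values in the intervals, up to `ε` times the expected number of
the surviving points of a box of side `N`.
(B) If pairwise independent linear forms are positive at some point and the invariant sets `S i`
contain integers of sign `s`, then at least `β` times the expected number of the surviving points are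
such that all values are of sign `s`, at most `N` in size, and in the sets `S i`.
(C) If moreover no prime divides the product of the forms identically, then for some `A` and every odd
`q`, every class `ρ` modulo `q` at which all forms are coprime to `q`, and every `N ≥ A q ^ A` at least
`N ^ D' / (q ^ D' (log N) ^ A)` points of the class (`D'` is the number of variables) are such that the
values are of sign `s`, at most `N` in size, in the sets `S i`, and have at most `A` prime factors.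
(D) If for infinitely many `N` there is a sieve of dimension `κ` with primes and modulus at most `N ^ o(1)`
for which only `o` of the expected number of the surviving points have all values in the invariant
set `S`, then `S` contains no integer of sign `s`.
(E) If this holds for both signs (with any systems of forms) and the set of the integers whose
trajectories enter other cycles than the five known ones, then there are no other cycles. -/
theorem result :
    (∀ (D r κ : ℕ) (Λ : Fin r → Fin (D + 1) → ℤ), (∀ i, Λ i ≠ 0) →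
      (∀ i j, i ≠ j → ∀ a b : ℤ, a • Λ i = b • Λ j → a = 0 ∧ b = 0) →
      ∀ s : Fin r → ℤ, (∀ i, s i = 1 ∨ s i = -1) → ∀ ε : ℝ, 0 < ε → ∃ θ : ℝ, 0 < θ ∧ ∃ N₀ : ℕ,
      ∀ S : Fin r → Set ℤ, (∀ i, Invariant (S i)) → ∃ δ : Fin r → ℝ, (∀ i, HasDensity (s i) (S i) (δ i)) ∧
      ∀ N : ℕ, N₀ ≤ N → ∀ w : Sieve (D + 1), w.Valid κ ((N : ℝ) ^ θ) →
      ∀ c : Fin r → ℤ, ∀ M N' : Fin r → ℕ, (∀ i, M i ≤ N' i) → (∀ i, N' i ≤ N) →
      ∀ P P' : Fin (D + 1) → ℤ, (∀ j, P' j - P j ≤ N) →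
        |(Points Λ c s M N' P P' w S : ℝ) - (∏ i, δ i) * Points Λ c s M N' P P' w (fun _ => Set.univ)| ≤
          ε * w.dens * N ^ (D + 1)) ∧
    (∀ (D r : ℕ) (Λ : Fin r → Fin (D + 1) → ℤ), (∀ i j, i ≠ j → ∀ a b : ℤ, a • Λ i = b • Λ j → a = 0 ∧ b = 0) →
      (∃ v : Fin (D + 1) → ℤ, ∀ i, 0 < ∑ j, Λ i j * v j) → ∀ s : ℤ, (s = 1 ∨ s = -1) →
      (∀ S : Fin r → Set ℤ, (∀ i, Invariant (S i)) → (∀ i, ∃ x ∈ S i, 0 < s * x) →
        (∀ κ : ℕ, ∃ β : ℝ, 0 < β ∧ ∃ θ : ℝ, 0 < θ ∧ ∃ N₀ : ℕ, ∀ N : ℕ, N₀ ≤ N → ∀ w : Sieve (D + 1), w.Valid κ ((N : ℝ) ^ θ) →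
          β * w.dens * N ^ (D + 1) ≤ Patterns Λ s N w S) ∧
        ((∀ p : ℕ, p.Prime → ∃ u : Fin (D + 1) → ℤ, ∀ i, ¬ (p : ℤ) ∣ ∑ j, Λ i j * u j) →
          ∃ A : ℕ, ∀ q : ℕ, q % 2 = 1 → ∀ ρ : Fin (D + 1) → ℤ, (∀ i, IsCoprime (∑ j, Λ i j * ρ j) (q : ℤ)) →
          ∀ N : ℕ, A * q ^ A ≤ N → (N : ℝ) ^ (D + 1) ≤ (q : ℝ) ^ (D + 1) * Real.log N ^ A *
            ({x : Fin (D + 1) → ℤ | (∀ j, -(N : ℤ) < x j ∧ x j ≤ N ∧ (q : ℤ) ∣ x j - ρ j) ∧
              ∀ i, (∑ j, Λ i j * x j) ∈ S i ∧ 0 < s * (∑ j, Λ i j * x j) ∧ s * (∑ j, Λ i j * x j) ≤ N ∧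
                ArithmeticFunction.cardFactors (∑ j, Λ i j * x j).natAbs ≤ A}.ncard : ℝ))) ∧
      (∀ κ : ℕ, ∀ ψ : ℕ → ℝ, Tendsto ψ atTop (𝓝 0) → ∀ S : Set ℤ, Invariant S →
        (∃ᶠ N : ℕ in atTop, ∃ w : Sieve (D + 1), w.Valid κ ((N : ℝ) ^ ψ N) ∧ w.dens ≠ 0 ∧
          (Patterns Λ s N w (fun _ => S) : ℝ) ≤ ψ N * w.dens * N ^ (D + 1)) → ∀ x ∈ S, ¬ 0 < s * x)) ∧
    ((∀ s : ℤ, (s = 1 ∨ s = -1) → ∃ (D r κ : ℕ) (Λ : Fin r → Fin (D + 1) → ℤ) (ψ : ℕ → ℝ),
        (∀ i j, i ≠ j → ∀ a b : ℤ, a • Λ i = b • Λ j → a = 0 ∧ b = 0) ∧ (∃ v : Fin (D + 1) → ℤ, ∀ i, 0 < ∑ j, Λ i j * v j) ∧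
        Tendsto ψ atTop (𝓝 0) ∧ ∃ᶠ N : ℕ in atTop, ∃ w : Sieve (D + 1), w.Valid κ ((N : ℝ) ^ ψ N) ∧ w.dens ≠ 0 ∧
          (Patterns Λ s N w (fun _ => Unknown) : ℝ) ≤ ψ N * w.dens * N ^ (D + 1)) →
      ∀ (x : ℤ) (p : ℕ), 1 ≤ p → T^[p] x = x → x ∈ Known) := by
  refine ⟨fun D r κ Λ h0 hΛ s hs ε hε => ?_, fun D r Λ hΛ hv s hs => ⟨fun S hS hne => ⟨fun κ => ?_, fun hadm => ?_⟩, ?_⟩, ?_⟩
  · obtain ⟨θ, hθ, N₀, h⟩ := relativeq (κ := κ) h0 hΛ hs hε
    refine ⟨θ, hθ, N₀, fun S hS => ?_⟩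
    choose δ hδ hδ' using fun i => HD_iff (hs i) (hS i)
    refine ⟨δ, hδ', fun N hN w hw c M N' hM hN' P P' hP => ?_⟩
    rw [points_eq, points_eq, dens_eq]
    exact h S (fun i => inv_of (hS i)) δ hδ N hN w.Q (fun p hp => ⟨(hw.1 p hp).1, (hw.1 p hp).2.1⟩) w.Ω (fun p hp => (hw.1 p hp).2.2.2)
      w.q hw.2.1 hw.2.2 (fun p hp => (hw.1 p hp).2.2.1) (rd w.q w.ρ) c M N' hM hN' P P' hP
  · obtain ⟨v, hv⟩ := hv
    exact many hΛ hv hs hS hne κ
  · obtain ⟨v, hv⟩ := hv
    choose δ hδ hδ' using fun i => HD_iff hs (hS i)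
    have hpos : ∀ i, 0 < δ i := by
      intro i
      obtain ⟨x, hx, hx0⟩ := hne i
      exact one_pos hs (inv_of (hS i)) hx hx0 (hδ i)
    exact patterns hΛ hv hadm hs (fun i => inv_of (hS i)) hδ hpos
  · obtain ⟨v, hv⟩ := hv
    intro κ ψ hψ S hS h
    exact sufficient hΛ hv hs κ hψ hS h
  · intro h x p hp hx
    by_contra hcon
    have hU : x ∈ Unknown := ⟨0, p, hp, hx, hcon⟩
    have key : ∀ s : ℤ, (s = 1 ∨ s = -1) → ¬ 0 < s * x := by
      intro s hs
      obtain ⟨D, r, κ, Λ, ψ, hΛ, ⟨v, hv⟩, hψ, h1⟩ := h s hs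
      exact sufficient hΛ hv hs κ hψ unknown_inv h1 x hU
    have h1 := key 1 (Or.inl rfl)
    have h2 := key (-1) (Or.inr rfl)
    have h3 : x = 0 := by omega
    rw [h3] at hcon
    exact hcon (by decide)

end Pool.Agent.Results.MP_edb5be_nt.AlmostPrimePatterns
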