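import Mathlib
import Pool.Agent.W42.Ent

set_option autoImplicit false

/-!
Entropy of the parity words against the oscillation of the cycles of the 3x+1 map on the integers.
-/

namespace Pool.Agent.Results.MP_edb5be_nt.EntropyOscillation

/-- The 3x+1 map on the integers. -/
def T (x : ℤ) : ℤ := if x % 2 = 0 then x / 2 else (3 * x + 1) / 2

/-- `Z` is a cycle of `T`. -/
def IsCycle (Z : Finset ℤ) : Prop :=
  ∃ (x : ℤ) (p : ℕ), 1 ≤ p ∧ T^[p] x = x ∧ Z = (Finset.range p).image fun i => T^[i] x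

/-- the parity words of length `n` which can be read along `Z` -/
def words (Z : Finset ℤ) (n : ℕ) : Finset (Fin n → ℤ) :=
  Z.image fun x => fun j : Fin n => T^[(j : ℕ)] x % 2

/-- Let `K ≥ 0` and `δ ≥ 0` be real with `δ (13 K + 1) < 1`. For every `C` only finitely many cycles of
the 3x+1 map on the integers have, for all `n`, at most `C 2 ^ (δ n)` different parity words of length
`n` and satisfy `|x| ≤ C |y| ^ K` for all their elements `x` and `y`. -/
theorem result (K C δ : ℝ) (hδ : 0 ≤ δ) (hK : 0 ≤ K) (h : δ * (13 * K + 1) < 1) :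
    {Z : Finset ℤ | IsCycle Z ∧ (∀ x ∈ Z, ∀ y ∈ Z, |(x : ℝ)| ≤ C * |(y : ℝ)| ^ K) ∧
      ∀ n : ℕ, ((words Z n).card : ℝ) ≤ C * 2 ^ (δ * n)}.Finite :=
  Pool.Agent.W42.Ent.finite_entropy K C δ hδ hK h

end Pool.Agent.Results.MP_edb5be_nt.EntropyOscillation
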