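import Mathlib
import Pool.Agent.W42.Five

set_option autoImplicit false

/-!
Classification of the cycles of the 3x+1 map on the integers with few parity words.
-/

namespace Pool.Agent.Results.MP_edb5be_nt.FewParityWords

/-- The 3x+1 map on the integers. -/
def T (x : ℤ) : ℤ := if x % 2 = 0 then x / 2 else (3 * x + 1) / 2

/-- `Z` is a cycle of `T`. -/
def IsCycle (Z : Finset ℤ) : Prop :=
  ∃ (x : ℤ) (p : ℕ), 1 ≤ p ∧ T^[p] x = x ∧ Z = (Finset.range p).image fun i => T^[i] x

/-- the parity words of length `n` which can be read along `Z` -/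
def words (Z : Finset ℤ) (n : ℕ) : Finset (Fin n → ℤ) :=
  Z.image fun x => fun j : Fin n => T^[(j : ℕ)] x % 2

/-- A finite set of integers is a cycle of the 3x+1 map along which at most `5n/2 + 20` different
parity words of length `n` can be read, for every `n`, if and only if it is one of the five known
cycles. -/
theorem result (Z : Finset ℤ) :
    (IsCycle Z ∧ ∀ n : ℕ, 2 * (words Z n).card ≤ 5 * n + 40) ↔
      Z = {0} ∨ Z = {-1} ∨ Z = {1, 2} ∨ Z = {-5, -7, -10} ∨
        Z = {-17, -25, -37, -55, -82, -41, -61, -91, -136, -68, -34} :=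
  Pool.Agent.W42.Five.main Z

end Pool.Agent.Results.MP_edb5be_nt.FewParityWords
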