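import Mathlib
import Pool.Agent.W42.Local2

set_option autoImplicit false

/-!
The integers which lie on cycles of the 3x+1 map are uniformly sparse in all intervals, wherever
these lie on the real line.
-/

namespace Pool.Agent.Results.MP_edb5be_nt.LocalSparsity

/-- The 3x+1 map on the integers. -/
def T (x : ℤ) : ℤ := if x % 2 = 0 then x / 2 else (3 * x + 1) / 2

/-- `x` lies on a cycle of `T`. -/
def OnCycle (x : ℤ) : Prop := ∃ p : ℕ, 1 ≤ p ∧ T^[p] x = x

/-- For every `η` larger than the base-two binary entropy `0.94995...` of `log 2 / log 3` there is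
a constant `C` such that every real interval `[y - R, y + R]` with `R ≥ 1`, wherever it lies on the
real line, contains at most `C R ^ η` elements of cycles; `η = 0.951` is admissible. -/
theorem result :
    (∀ η : ℝ, Real.binEntropy (Real.log 2 / Real.log 3) / Real.log 2 < η →
      ∃ C : ℝ, ∀ y R : ℝ, 1 ≤ R → ∀ F : Finset ℤ, (∀ x ∈ F, OnCycle x ∧ |(x : ℝ) - y| ≤ R) →
        (F.card : ℝ) ≤ C * R ^ η) ∧
    Real.binEntropy (Real.log 2 / Real.log 3) / Real.log 2 < 0.951 := by
  refine ⟨?_, Pool.Agent.H319R2.beta_lt⟩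
  intro η hη
  obtain ⟨C, -, hC⟩ := Pool.Agent.W42.local_sparse η hη
  refine ⟨C, ?_⟩
  intro y R hR F hF
  apply hC _ Pool.Agent.H319R2.tame_periodic y R hR F
  intro x hx
  obtain ⟨⟨p, hp, hpx⟩, h⟩ := hF x hx
  exact ⟨⟨p, hp, hpx⟩, h⟩

end Pool.Agent.Results.MP_edb5be_nt.LocalSparsity
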