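import Mathlib
import Pool.Agent.W42.Cpx2

set_option autoImplicit false

/-!
Lower bounds for the subword complexity of the parity words of the cycles of the 3x+1 map on the
integers.
-/

namespace Pool.Agent.Results.MP_edb5be_nt.ParityComplexity

/-- The 3x+1 map on the integers. -/
def T (x : ℤ) : ℤ := if x % 2 = 0 then x / 2 else (3 * x + 1) / 2

/-- `Z` is a cycle of `T`. -/
def IsCycle (Z : Finset ℤ) : Prop :=
  ∃ (x : ℤ) (p : ℕ), 1 ≤ p ∧ T^[p] x = x ∧ Z = (Finset.range p).image fun i => T^[i] x

/-- the number of odd terms among `x, T x, ..., T^(k-1) x` -/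
def odds (k : ℕ) (x : ℤ) : ℕ := ((Finset.range k).filter fun i => T^[i] x % 2 = 1).card

/-- the parity words of length `n` which can be read along `Z` -/
def words (Z : Finset ℤ) (n : ℕ) : Finset (Fin n → ℤ) :=
  Z.image fun x => fun j : Fin n => T^[(j : ℕ)] x % 2

/-- Let `a < log 2 / log 3 < b` and `c < log 2 / (b log 3 - log 2) + log 2 / (log 2 - a log 3)`, and
let `C` be real. (1) There is `A` such that for every cycle `Z` of the 3x+1 map on the integers for
which any `k` consecutive terms contain at least `a k - C` and at most `b k + C` odd ones, and for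
every `n ≥ A (1 + log |Z|)`, at least `min (|Z|, c n)` different parity words of length `n` can be
read along `Z`. (2) Consequently for every `C'` only finitely many of these cycles have at most
`c n + C'` parity words of length `n` for every `n`. With `a = 0`, `b = 1`, `C = 0` there is no
condition on the cycle, and `c` is any number less than `1 + log 2 / log (3 / 2) = 2.7095...`. -/
theorem result (a b c C : ℝ) (ha : a * Real.log 3 < Real.log 2) (hb : Real.log 2 < b * Real.log 3)
    (hc : c < Real.log 2 / (b * Real.log 3 - Real.log 2) +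
      Real.log 2 / (Real.log 2 - a * Real.log 3)) :
    (∃ A : ℝ, ∀ Z : Finset ℤ, IsCycle Z →
      (∀ x ∈ Z, ∀ k : ℕ, a * k - C ≤ odds k x ∧ (odds k x : ℝ) ≤ b * k + C) →
      ∀ n : ℕ, A * (1 + Real.log Z.card) ≤ n →
        min (Z.card : ℝ) (c * n) ≤ (words Z n).card) ∧
    ∀ C' : ℝ, {Z : Finset ℤ | IsCycle Z ∧
      (∀ x ∈ Z, ∀ k : ℕ, a * k - C ≤ odds k x ∧ (odds k x : ℝ) ≤ b * k + C) ∧
      ∀ n : ℕ, ((words Z n).card : ℝ) ≤ c * n + C'}.Finite := by
  constructor
  · obtain ⟨A, -, hA⟩ := Pool.Agent.W42.Cpx.main a b C c ha hb hc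
    exact ⟨A, hA⟩
  · exact Pool.Agent.W42.Cpx.finite_low a b C c ha hb hc

end Pool.Agent.Results.MP_edb5be_nt.ParityComplexity
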